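import Mathlib

/-!
# Hitting probabilities of finite reversible Markov chains
-/

namespace Q296.Surprise

variable {Ω : Type*} [Fintype Ω] [DecidableEq Ω]

/-- `P` is a transition matrix on the finite set `Ω`, reversible with respect to the (positive)
probability vector `π`. -/
structure IsRevChain (P : Matrix Ω Ω ℝ) (π : Ω → ℝ) : Prop where
  nonneg : ∀ x y, 0 ≤ P x y
  row_sum : ∀ x, ∑ y, P x y = 1
  pi_pos : ∀ x, 0 < π x
  pi_sum : ∑ x, π x = 1
  rev : ∀ x y, π x * P x y = π y * P y x

/-- `hit P y t x` is the probability `P_x(τ(y) = t)` that the chain started at `x` first reaches `y`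
at time exactly `t`. -/
def hit (P : Matrix Ω Ω ℝ) (y : Ω) : ℕ → Ω → ℝ
  | 0, x => if x = y then 1 else 0
  | t + 1, x => if x = y then 0 else ∑ z, P x z * hit P y t z

end Q296.Surprise
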