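import Pool.Agent.Q296.Surprise.Trunc

/-!
# The surprise bound for chains with holding
-/

namespace Q296.Surprise

open Finset Matrix

variable {Ω : Type*} [Fintype Ω] [DecidableEq Ω]

/-- Distribution at time `s` of the chain started at `x` and killed at `y`. -/
def tab (P : Matrix Ω Ω ℝ) (x y : Ω) : ℕ → Ω → ℝ
  | 0, z => if z = x then 1 else 0
  | s + 1, w => if w = y then 0 else ∑ z, tab P x y s z * P z w

/-- `P_z(τ(y) ≤ r)`. -/
def gg (P : Matrix Ω Ω ℝ) (y : Ω) : ℕ → Ω → ℝ
  | 0, z => if z = y then 1 else 0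
  | r + 1, z => if z = y then 1 else ∑ w, P z w * gg P y r w

theorem tab_succ (P : Matrix Ω Ω ℝ) (x y : Ω) (s : ℕ) (w : Ω) :
    tab P x y (s + 1) w = if w = y then 0 else ∑ z, tab P x y s z * P z w := rfl

theorem tab_y (P : Matrix Ω Ω ℝ) {x y : Ω} (hxy : x ≠ y) (s : ℕ) : tab P x y s y = 0 := by
  cases s with
  | zero => simp [tab, hxy.symm]
  | succ s => rw [tab_succ, if_pos rfl]

theorem gg_succ_ne (P : Matrix Ω Ω ℝ) {y z : Ω} (hz : z ≠ y) (r : ℕ) :
    gg P y (r + 1) z = ∑ w, P z w * gg P y r w := by
  show (if z = y then 1 else ∑ w, P z w * gg P y r w) = _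
  rw [if_neg hz]

theorem gg_self (P : Matrix Ω Ω ℝ) (y : Ω) (r : ℕ) : gg P y r y = 1 := by
  cases r <;> simp [gg]

theorem hit_succ_ne (P : Matrix Ω Ω ℝ) {y z : Ω} (hz : z ≠ y) (r : ℕ) :
    hit P y (r + 1) z = ∑ w, P z w * hit P y r w := by
  show (if z = y then 0 else ∑ w, P z w * hit P y r w) = _
  rw [if_neg hz]

theorem hit_succ_self (P : Matrix Ω Ω ℝ) (y : Ω) (r : ℕ) : hit P y (r + 1) y = 0 := by
  show (if y = y then 0 else ∑ w, P y w * hit P y r w) = 0
  rw [if_pos rfl]

theorem hit_eq_sub (P : Matrix Ω Ω ℝ) (y : Ω) (r : ℕ) (z : Ω) :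
    hit P y (r + 1) z = gg P y (r + 1) z - gg P y r z := by
  induction r generalizing z with
  | zero =>
    by_cases hz : z = y
    · subst hz
      rw [hit_succ_self, gg_self, gg_self, sub_self]
    · rw [hit_succ_ne P hz, gg_succ_ne P hz]
      simp [hit, gg, hz]
  | succ r ih =>
    by_cases hz : z = y
    · subst hz
      rw [hit_succ_self, gg_self, gg_self, sub_self]
    · rw [hit_succ_ne P hz, gg_succ_ne P hz, gg_succ_ne P hz]
      simp only [ih, mul_sub, Finset.sum_sub_distrib]

section

variable {P : Matrix Ω Ω ℝ} {π : Ω → ℝ} (h : IsRevChain P π)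

include h

theorem gg_nonneg (y : Ω) (r : ℕ) (z : Ω) : 0 ≤ gg P y r z := by
  induction r generalizing z with
  | zero => unfold gg; split_ifs <;> norm_num
  | succ r ih =>
    unfold gg
    split_ifs
    · norm_num
    · exact Finset.sum_nonneg fun w _ => mul_nonneg (h.nonneg z w) (ih w)

theorem gg_le_one (y : Ω) (r : ℕ) (z : Ω) : gg P y r z ≤ 1 := by
  induction r generalizing z with
  | zero => unfold gg; split_ifs <;> norm_num
  | succ r ih =>
    unfold gg
    split_ifs
    · norm_num
    · rw [← h.row_sum z]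
      exact Finset.sum_le_sum fun w _ => by
        have := mul_le_mul_of_nonneg_left (ih w) (h.nonneg z w)
        linarith

theorem hit_nonneg' (y : Ω) (t : ℕ) (x : Ω) : 0 ≤ hit P y t x := by
  induction t generalizing x with
  | zero => unfold hit; split_ifs <;> norm_num
  | succ t ih =>
    unfold hit
    split_ifs
    · exact le_rfl
    · exact Finset.sum_nonneg fun z _ => mul_nonneg (h.nonneg x z) (ih z)

theorem tab_nonneg (x y : Ω) (s : ℕ) (z : Ω) : 0 ≤ tab P x y s z := by
  induction s generalizing z with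
  | zero => unfold tab; split_ifs <;> norm_num
  | succ s ih =>
    unfold tab
    split_ifs
    · exact le_rfl
    · exact Finset.sum_nonneg fun w _ => mul_nonneg (ih w) (h.nonneg w z)

theorem tab_le (x y : Ω) (s : ℕ) (z : Ω) : tab P x y s z ≤ π z / π x := by
  have hx := h.pi_pos x
  induction s generalizing z with
  | zero =>
    unfold tab
    have hz := h.pi_pos z
    split_ifs with hzx
    · subst hzx; rw [div_self hz.ne']
    · positivity
  | succ s ih =>
    unfold tab
    split_ifs
    · have hz := h.pi_pos z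
      positivity
    · calc ∑ w, tab P x y s w * P w z ≤ ∑ w, π w / π x * P w z :=
          Finset.sum_le_sum fun w _ => mul_le_mul_of_nonneg_right (ih w) (h.nonneg w z)
        _ = ∑ w, π z / π x * P z w := by
          refine Finset.sum_congr rfl fun w _ => ?_
          rw [div_mul_eq_mul_div, div_mul_eq_mul_div, h.rev w z]
        _ = π z / π x := by rw [← Finset.mul_sum, h.row_sum, mul_one]

theorem tab_hit {x y : Ω} (hxy : x ≠ y) (s r : ℕ) :
    ∑ z, tab P x y s z * hit P y (r + 1) z = hit P y (s + (r + 1)) x := by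
  induction s generalizing r with
  | zero =>
    rw [zero_add, Finset.sum_eq_single x]
    · simp [tab]
    · intro z _ hz
      simp [tab, hz]
    · simp
  | succ s ih =>
    have h1 : ∀ w, tab P x y (s + 1) w * hit P y (r + 1) w =
        ∑ z, tab P x y s z * P z w * hit P y (r + 1) w := by
      intro w
      rw [tab_succ]
      split_ifs with hw
      · subst hw
        rw [hit_succ_self]
        simp
      · rw [Finset.sum_mul]
    simp only [h1]
    rw [Finset.sum_comm]
    have h2 : s + 1 + (r + 1) = s + (r + 1 + 1) := by ring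
    rw [h2, ← ih (r + 1)]
    refine Finset.sum_congr rfl fun z _ => ?_
    by_cases hz : z = y
    · subst hz
      rw [hit_succ_self, mul_zero]
      refine Finset.sum_eq_zero fun w _ => ?_
      rw [tab_y P hxy]
      simp
    · rw [hit_succ_ne P hz, Finset.mul_sum]
      exact Finset.sum_congr rfl fun w _ => by ring

/-- The stationary hitting probabilities are at most `1 / (r + 1)`. -/
theorem stat_hit_le (y : Ω) (r : ℕ) :
    ((r : ℝ) + 1) * ∑ z, π z * hit P y (r + 1) z ≤ 1 := by
  have hanti : ∀ r, ∑ z, π z * hit P y (r + 2) z ≤ ∑ z, π z * hit P y (r + 1) z := by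
    intro r
    have h1 : ∀ z, π z * hit P y (r + 2) z ≤ ∑ w, π z * P z w * hit P y (r + 1) w := by
      intro z
      by_cases hz : z = y
      · subst hz
        rw [hit_succ_self, mul_zero]
        exact Finset.sum_nonneg fun w _ => mul_nonneg (mul_nonneg (h.pi_pos _).le (h.nonneg _ _))
          (hit_nonneg' h _ _ _)
      · rw [hit_succ_ne P hz, Finset.mul_sum]
        exact le_of_eq (Finset.sum_congr rfl fun w _ => by ring)
    calc ∑ z, π z * hit P y (r + 2) z ≤ ∑ z, ∑ w, π z * P z w * hit P y (r + 1) w :=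
          Finset.sum_le_sum fun z _ => h1 z
      _ = ∑ w, ∑ z, π z * P z w * hit P y (r + 1) w := Finset.sum_comm
      _ = ∑ w, π w * hit P y (r + 1) w := by
          refine Finset.sum_congr rfl fun w _ => ?_
          rw [← Finset.sum_mul]
          congr 1
          calc ∑ z, π z * P z w = ∑ z, π w * P w z := Finset.sum_congr rfl fun z _ => h.rev z w
            _ = π w := by rw [← Finset.mul_sum, h.row_sum, mul_one]
  have hsum : ∀ r : ℕ, ((r : ℝ) + 1) * ∑ z, π z * hit P y (r + 1) z ≤
      ∑ z, π z * gg P y (r + 1) z - ∑ z, π z * gg P y 0 z := by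
    intro r
    induction r with
    | zero =>
      simp only [hit_eq_sub, mul_sub, Finset.sum_sub_distrib]
      simp
    | succ r ih =>
      have h2 := hanti r
      have h3 : ∑ z, π z * hit P y (r + 2) z =
          ∑ z, π z * gg P y (r + 2) z - ∑ z, π z * gg P y (r + 1) z := by
        simp only [hit_eq_sub, mul_sub, Finset.sum_sub_distrib]
      have h4 : ((r : ℝ) + 1) * ∑ z, π z * hit P y (r + 2) z ≤
          ((r : ℝ) + 1) * ∑ z, π z * hit P y (r + 1) z :=
        mul_le_mul_of_nonneg_left h2 (by positivity)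
      push_cast
      linarith
  refine (hsum r).trans ?_
  have h5 : ∑ z, π z * gg P y (r + 1) z ≤ 1 := by
    rw [← h.pi_sum]
    exact Finset.sum_le_sum fun z _ => by
      have := mul_le_mul_of_nonneg_left (gg_le_one h y (r + 1) z) (h.pi_pos z).le
      linarith
  have h6 : 0 ≤ ∑ z, π z * gg P y 0 z :=
    Finset.sum_nonneg fun z _ => mul_nonneg (h.pi_pos z).le (gg_nonneg h y 0 z)
  linarith

theorem tab_mass (x y : Ω) (s : ℕ) : ∑ z, tab P x y s z ≤ 1 := by
  induction s with
  | zero => simp [tab]
  | succ s ih =>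
    calc ∑ w, tab P x y (s + 1) w ≤ ∑ w, ∑ z, tab P x y s z * P z w := by
          refine Finset.sum_le_sum fun w _ => ?_
          rw [tab_succ]
          split_ifs
          · exact Finset.sum_nonneg fun z _ => mul_nonneg (tab_nonneg h x y s z) (h.nonneg z w)
          · exact le_rfl
      _ = ∑ z, ∑ w, tab P x y s z * P z w := Finset.sum_comm
      _ = ∑ z, tab P x y s z := by
          refine Finset.sum_congr rfl fun z _ => ?_
          rw [← Finset.mul_sum, h.row_sum, mul_one]
      _ ≤ 1 := ih

/-- The second factor: martingale variance. -/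
theorem sum_V {δ : ℝ} (hδ : 0 < δ) (hlazy : ∀ z, δ ≤ P z z) {x y : Ω} (hxy : x ≠ y) (t N : ℕ)
    (hN : N ≤ t) :
    ∑ s ∈ range N, ∑ z, tab P x y s z * ∑ w, P z w *
      (gg P y (t - 1 - s) w - gg P y (t - 1 - s) z) ^ 2 ≤ 1 + 1 / δ := by
  set m : ℕ → ℝ := fun s => ∑ z, tab P x y s z * (gg P y (t - s) z) ^ 2 +
    (1 - ∑ z, tab P x y s z) with hm
  have hstep : ∀ s, s < t → ∑ z, tab P x y s z * ∑ w, P z w *
      (gg P y (t - 1 - s) w - gg P y (t - 1 - s) z) ^ 2 ≤ (1 + 1 / δ) * (m (s + 1) - m s) := by
    intro s hs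
    obtain ⟨r, hr⟩ : ∃ r, t - s = r + 1 := ⟨t - s - 1, by omega⟩
    have hr1 : t - 1 - s = r := by omega
    have hr2 : t - (s + 1) = r := by omega
    have h1 : m (s + 1) - m s = ∑ z, tab P x y s z * (∑ w, P z w * (gg P y r w) ^ 2 -
        (gg P y (r + 1) z) ^ 2) := by
      simp only [hm, hr, hr2]
      have h2 : ∑ w, tab P x y (s + 1) w * (gg P y r w) ^ 2 - ∑ w, tab P x y (s + 1) w =
          ∑ z, tab P x y s z * (∑ w, P z w * (gg P y r w) ^ 2) - ∑ z, tab P x y s z := by
        have h3 : ∀ w, tab P x y (s + 1) w * (gg P y r w) ^ 2 - tab P x y (s + 1) w =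
            ∑ z, tab P x y s z * P z w * ((gg P y r w) ^ 2 - 1) := by
          intro w
          rw [← Finset.sum_mul, tab_succ]
          split_ifs with hw
          · subst hw; rw [gg_self]; ring
          · ring
        rw [← Finset.sum_sub_distrib, Finset.sum_congr rfl fun w _ => h3 w, Finset.sum_comm,
          ← Finset.sum_sub_distrib]
        refine Finset.sum_congr rfl fun z _ => ?_
        have h4 : ∑ w, tab P x y s z * P z w * ((gg P y r w) ^ 2 - 1) =
            tab P x y s z * (∑ w, P z w * (gg P y r w) ^ 2) - tab P x y s z * ∑ w, P z w := by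
          rw [Finset.mul_sum, Finset.mul_sum, ← Finset.sum_sub_distrib]
          exact Finset.sum_congr rfl fun w _ => by ring
        rw [h4, h.row_sum, mul_one]
      simp only [mul_sub, Finset.sum_sub_distrib]
      linarith
    rw [h1, hr1, Finset.mul_sum]
    refine Finset.sum_le_sum fun z _ => ?_
    have ht := tab_nonneg h x y s z
    by_cases hz : z = y
    · subst hz
      rw [tab_y P hxy]; simp
    · have hg := gg_succ_ne P hz r
      set G := gg P y (r + 1) z with hG
      set g0 := gg P y r z with hg0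
      have h5 : ∑ w, P z w * (gg P y r w) ^ 2 - G ^ 2 = ∑ w, P z w * (gg P y r w - G) ^ 2 := by
        have e : ∀ w, P z w * (gg P y r w - G) ^ 2 = P z w * (gg P y r w) ^ 2 -
            2 * G * (P z w * gg P y r w) + G ^ 2 * P z w := fun w => by ring
        simp only [e]
        rw [Finset.sum_add_distrib, Finset.sum_sub_distrib, ← Finset.mul_sum, ← Finset.mul_sum,
          h.row_sum, ← hg]
        ring
      have h6 : ∑ w, P z w * (gg P y r w - g0) ^ 2 = ∑ w, P z w * (gg P y r w - G) ^ 2 +
          (G - g0) ^ 2 := by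
        have e : ∀ w, P z w * (gg P y r w - g0) ^ 2 = P z w * (gg P y r w - G) ^ 2 +
            2 * (G - g0) * (P z w * gg P y r w) - 2 * (G - g0) * G * P z w +
            (G - g0) ^ 2 * P z w := fun w => by ring
        simp only [e]
        rw [Finset.sum_add_distrib, Finset.sum_sub_distrib, Finset.sum_add_distrib,
          ← Finset.mul_sum, ← Finset.mul_sum, ← Finset.mul_sum, h.row_sum, ← hg]
        ring
      have h7 : δ * (G - g0) ^ 2 ≤ ∑ w, P z w * (gg P y r w - G) ^ 2 := by
        have h8 : P z z * (g0 - G) ^ 2 ≤ ∑ w, P z w * (gg P y r w - G) ^ 2 :=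
          Finset.single_le_sum (f := fun w => P z w * (gg P y r w - G) ^ 2)
            (fun w _ => mul_nonneg (h.nonneg z w) (sq_nonneg _)) (Finset.mem_univ z)
        have h9 : δ * (g0 - G) ^ 2 ≤ P z z * (g0 - G) ^ 2 :=
          mul_le_mul_of_nonneg_right (hlazy z) (sq_nonneg _)
        calc δ * (G - g0) ^ 2 = δ * (g0 - G) ^ 2 := by ring
          _ ≤ _ := h9.trans h8
      rw [h5, h6]
      set Y := ∑ w, P z w * (gg P y r w - G) ^ 2 with hY
      have h10 : (G - g0) ^ 2 ≤ 1 / δ * Y := by
        rw [one_div, ← div_eq_inv_mul, le_div_iff₀ hδ]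
        linarith
      have h11 : Y + (G - g0) ^ 2 ≤ (1 + 1 / δ) * Y := by linarith
      calc tab P x y s z * (Y + (G - g0) ^ 2) ≤ tab P x y s z * ((1 + 1 / δ) * Y) :=
            mul_le_mul_of_nonneg_left h11 ht
        _ = _ := by ring
  calc ∑ s ∈ range N, ∑ z, tab P x y s z * ∑ w, P z w *
      (gg P y (t - 1 - s) w - gg P y (t - 1 - s) z) ^ 2
      ≤ ∑ s ∈ range N, (1 + 1 / δ) * (m (s + 1) - m s) :=
        Finset.sum_le_sum fun s hs => hstep s (by have := Finset.mem_range.1 hs; omega)
    _ = (1 + 1 / δ) * (m N - m 0) := by rw [← Finset.mul_sum, Finset.sum_range_sub]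
    _ ≤ (1 + 1 / δ) * 1 := by
        refine mul_le_mul_of_nonneg_left ?_ (by positivity)
        have h1 : m N ≤ 1 := by
          simp only [hm]
          have : ∑ z, tab P x y N z * (gg P y (t - N) z) ^ 2 ≤ ∑ z, tab P x y N z := by
            refine Finset.sum_le_sum fun z _ => ?_
            have h2 : (gg P y (t - N) z) ^ 2 ≤ 1 :=
              pow_le_one₀ (gg_nonneg h _ _ _) (gg_le_one h _ _ _)
            have := mul_le_mul_of_nonneg_left h2 (tab_nonneg h x y N z)
            linarith
          linarith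
        have h2 : 0 ≤ m 0 := by
          simp only [hm]
          have h3 : 0 ≤ ∑ z, tab P x y 0 z * (gg P y (t - 0) z) ^ 2 :=
            Finset.sum_nonneg fun z _ => mul_nonneg (tab_nonneg h _ _ _ _) (sq_nonneg _)
          have h4 := tab_mass h x y 0
          linarith
        linarith
    _ = 1 + 1 / δ := mul_one _

/-- The first factor at one dyadic level: dissipation. -/
theorem sum_E {δ : ℝ} (hδ : 0 < δ) (hlazy : ∀ z, δ ≤ P z z) (x y : Ω) {c : ℝ}
    (hc : 0 < c) (N : ℕ) :
    ∑ s ∈ range N, ∑ z, ∑ w, π z * P z w * (TT c (tab P x y s z / π z) -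
      TT c (tab P x y s w / π w)) ^ 2 ≤ 4 * (1 + 1 / δ) * c := by
  set u : ℕ → Ω → ℝ := fun s z => tab P x y s z / π z with hu
  set D : ℕ → ℝ := fun s => ∑ z, π z * Th c (u s z) with hD
  have hu0 : ∀ s z, 0 ≤ u s z := fun s z => div_nonneg (tab_nonneg h x y s z) (h.pi_pos z).le
  have hstep : ∀ s, ∑ w, ∑ z, π w * P w z * (TT c (u s z) - TT c (u s w)) ^ 2 ≤
      4 * (1 + 1 / δ) * (D s - D (s + 1)) := by
    intro s
    set mm : Ω → ℝ := fun w => ∑ z, P w z * u s z with hmm
    have hD1 : D (s + 1) ≤ ∑ w, π w * Th c (mm w) := by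
      refine Finset.sum_le_sum fun w _ => ?_
      refine mul_le_mul_of_nonneg_left ?_ (h.pi_pos w).le
      by_cases hw : w = y
      · have : u (s + 1) w = 0 := by simp only [hu, tab_succ, if_pos hw, zero_div]
        rw [this, Th_zero hc]
        exact Th_nonneg hc _
      · have : u (s + 1) w = mm w := by
          simp only [hu, hmm, tab_succ, if_neg hw]
          rw [Finset.sum_div]
          refine Finset.sum_congr rfl fun z _ => ?_
          have hz := (h.pi_pos z).ne'
          have hw' := (h.pi_pos w).ne'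
          have := h.rev z w
          field_simp
          rw [mul_assoc, mul_comm (P z w) (π z), this]
          ring
        rw [this]
    have hD0 : D s = ∑ w, π w * ∑ z, P w z * Th c (u s z) := by
      have : ∑ w, π w * ∑ z, P w z * Th c (u s z) = ∑ z, ∑ w, π w * P w z * Th c (u s z) := by
        rw [Finset.sum_comm]
        refine Finset.sum_congr rfl fun w _ => ?_
        rw [Finset.mul_sum]
        exact Finset.sum_congr rfl fun z _ => by ring
      rw [this]
      refine Finset.sum_congr rfl fun z _ => ?_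
      rw [← Finset.sum_mul]
      congr 1
      calc π z = π z * ∑ w, P z w := by rw [h.row_sum, mul_one]
        _ = ∑ w, π z * P z w := by rw [Finset.mul_sum]
        _ = ∑ w, π w * P w z := Finset.sum_congr rfl fun w _ => h.rev z w
    have hX : ∀ w, ∑ z, P w z * (TT c (u s z) - TT c (u s w)) ^ 2 ≤
        4 * (1 + 1 / δ) * (∑ z, P w z * Th c (u s z) - Th c (mm w)) := by
      intro w
      set X : ℝ := ∑ z, P w z * (TT c (u s z) - TT c (mm w)) ^ 2 with hXdef
      have h1 : X / 2 ≤ ∑ z, P w z * Th c (u s z) - Th c (mm w) := by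
        have h2 : ∑ z, P w z * ((TT c (u s z) - TT c (mm w)) ^ 2 / 2) ≤
            ∑ z, P w z * (Th c (u s z) - Th c (mm w) - TT c (mm w) * (u s z - mm w)) :=
          Finset.sum_le_sum fun z _ => mul_le_mul_of_nonneg_left (bregman hc _ _) (h.nonneg w z)
        have h3 : ∑ z, P w z * (Th c (u s z) - Th c (mm w) - TT c (mm w) * (u s z - mm w)) =
            ∑ z, P w z * Th c (u s z) - Th c (mm w) := by
          have e : ∀ z, P w z * (Th c (u s z) - Th c (mm w) - TT c (mm w) * (u s z - mm w)) =
              P w z * Th c (u s z) - Th c (mm w) * P w z - TT c (mm w) * (P w z * u s z) +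
              TT c (mm w) * mm w * P w z := fun z => by ring
          simp only [e]
          rw [Finset.sum_add_distrib, Finset.sum_sub_distrib, Finset.sum_sub_distrib,
            ← Finset.mul_sum, ← Finset.mul_sum, ← Finset.mul_sum, h.row_sum]
          simp only [hmm]
          ring
        rw [h3] at h2
        refine le_trans (le_of_eq ?_) h2
        rw [hXdef, Finset.sum_div]
        exact Finset.sum_congr rfl fun z _ => by ring
      have h4 : δ * (TT c (u s w) - TT c (mm w)) ^ 2 ≤ X := by
        have h8 : P w w * (TT c (u s w) - TT c (mm w)) ^ 2 ≤ X :=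
          Finset.single_le_sum (f := fun z => P w z * (TT c (u s z) - TT c (mm w)) ^ 2)
            (fun z _ => mul_nonneg (h.nonneg w z) (sq_nonneg _)) (Finset.mem_univ w)
        exact (mul_le_mul_of_nonneg_right (hlazy w) (sq_nonneg _)).trans h8
      have h5 : (TT c (u s w) - TT c (mm w)) ^ 2 ≤ 1 / δ * X := by
        rw [one_div, ← div_eq_inv_mul, le_div_iff₀ hδ]
        linarith
      have h6 : ∑ z, P w z * (TT c (u s z) - TT c (u s w)) ^ 2 ≤
          2 * X + 2 * (TT c (u s w) - TT c (mm w)) ^ 2 := by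
        have h7 : ∀ z, P w z * (TT c (u s z) - TT c (u s w)) ^ 2 ≤
            2 * (P w z * (TT c (u s z) - TT c (mm w)) ^ 2) +
            2 * (TT c (u s w) - TT c (mm w)) ^ 2 * P w z := by
          intro z
          have h8 : (TT c (u s z) - TT c (u s w)) ^ 2 ≤
              2 * (TT c (u s z) - TT c (mm w)) ^ 2 + 2 * (TT c (u s w) - TT c (mm w)) ^ 2 := by
            nlinarith [sq_nonneg ((TT c (u s z) - TT c (mm w)) + (TT c (u s w) - TT c (mm w)))]
          have := mul_le_mul_of_nonneg_left h8 (h.nonneg w z)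
          linarith
        calc _ ≤ ∑ z, (2 * (P w z * (TT c (u s z) - TT c (mm w)) ^ 2) +
            2 * (TT c (u s w) - TT c (mm w)) ^ 2 * P w z) := Finset.sum_le_sum fun z _ => h7 z
          _ = _ := by
            rw [Finset.sum_add_distrib, ← Finset.mul_sum, ← Finset.mul_sum, h.row_sum, mul_one]
      have hX0 : 0 ≤ X := Finset.sum_nonneg fun z _ => mul_nonneg (h.nonneg w z) (sq_nonneg _)
      have h9 : 0 < 1 + 1 / δ := by positivity
      calc ∑ z, P w z * (TT c (u s z) - TT c (u s w)) ^ 2
          ≤ 2 * X + 2 * (1 / δ * X) := by linarith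
        _ = 4 * (1 + 1 / δ) * (X / 2) := by ring
        _ ≤ _ := mul_le_mul_of_nonneg_left h1 (by positivity)
    calc ∑ w, ∑ z, π w * P w z * (TT c (u s z) - TT c (u s w)) ^ 2
        = ∑ w, π w * ∑ z, P w z * (TT c (u s z) - TT c (u s w)) ^ 2 := by
          refine Finset.sum_congr rfl fun w _ => ?_
          rw [Finset.mul_sum]
          exact Finset.sum_congr rfl fun z _ => by ring
      _ ≤ ∑ w, π w * (4 * (1 + 1 / δ) * (∑ z, P w z * Th c (u s z) - Th c (mm w))) :=
          Finset.sum_le_sum fun w _ => mul_le_mul_of_nonneg_left (hX w) (h.pi_pos w).le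
      _ = 4 * (1 + 1 / δ) * (∑ w, π w * ∑ z, P w z * Th c (u s z) -
          ∑ w, π w * Th c (mm w)) := by
          rw [← Finset.sum_sub_distrib, Finset.mul_sum]
          exact Finset.sum_congr rfl fun w _ => by ring
      _ ≤ 4 * (1 + 1 / δ) * (D s - D (s + 1)) := by
          refine mul_le_mul_of_nonneg_left ?_ (by positivity)
          rw [hD0]
          linarith
  have hswap : ∀ s, ∑ z, ∑ w, π z * P z w * (TT c (tab P x y s z / π z) -
      TT c (tab P x y s w / π w)) ^ 2 = ∑ w, ∑ z, π w * P w z * (TT c (u s z) -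
      TT c (u s w)) ^ 2 := by
    intro s
    refine Finset.sum_congr rfl fun z _ => Finset.sum_congr rfl fun w _ => ?_
    simp only [hu]
    ring
  calc _ = ∑ s ∈ range N, ∑ w, ∑ z, π w * P w z * (TT c (u s z) - TT c (u s w)) ^ 2 :=
        Finset.sum_congr rfl fun s _ => hswap s
    _ ≤ ∑ s ∈ range N, 4 * (1 + 1 / δ) * (D s - D (s + 1)) :=
        Finset.sum_le_sum fun s _ => hstep s
    _ = 4 * (1 + 1 / δ) * (D 0 - D N) := by rw [← Finset.mul_sum, Finset.sum_range_sub']
    _ ≤ 4 * (1 + 1 / δ) * c := by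
        refine mul_le_mul_of_nonneg_left ?_ (by positivity)
        have h1 : 0 ≤ D N := Finset.sum_nonneg fun z _ =>
          mul_nonneg (h.pi_pos z).le (Th_nonneg hc _)
        have h2 : D 0 = π x * Th c (1 / π x) := by
          simp only [hD, hu]
          rw [Finset.sum_eq_single x]
          · simp [tab]
          · intro z _ hz
            simp [tab, hz, Th_zero hc]
          · simp
        have hx := h.pi_pos x
        have h3 : π x * Th c (1 / π x) ≤ π x * (c * (1 / π x)) :=
          mul_le_mul_of_nonneg_left (Th_le hc (by positivity)) hx.le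
        have h4 : π x * (c * (1 / π x)) = c := by field_simp
        linarith

end

end Q296.Surprise
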