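import Pool.Agent.Q296.Surprise.Lazy

/-!
# Conclusion for chains with holding
-/

namespace Q296.Surprise

open Finset Matrix

variable {Ω : Type*} [Fintype Ω] [DecidableEq Ω]

theorem split_one {K : ℕ} {a : ℝ} (ha : a ≤ 2 ^ K) :
    a = min a 1 + ∑ k ∈ range K, TT (2 ^ k) a := by
  rw [sum_TT, max_eq_right (by linarith : a - 2 ^ K ≤ 0), sub_zero]
  rcases le_total a 1 with h | h
  · rw [min_eq_left h, max_eq_right (by linarith)]; ring
  · rw [min_eq_right h, max_eq_left (by linarith)]; ring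

theorem edge_bound (K : ℕ) {a b d l : ℝ} (ha : 0 ≤ a) (hb : 0 ≤ b) (hl : 0 < l) :
    (∑ k ∈ range K, TT (2 ^ k) a - ∑ k ∈ range K, TT (2 ^ k) b) * d ≤
      l * ∑ k ∈ range K, (TT (2 ^ k) a - TT (2 ^ k) b) ^ 2 / 2 ^ k + (a + b) * d ^ 2 / (2 * l) := by
  have h1 : ∀ k ∈ range K, (TT (2 ^ k) a - TT (2 ^ k) b) * d ≤
      l * ((TT (2 ^ k) a - TT (2 ^ k) b) ^ 2 / 2 ^ k) +
      (if (2 : ℝ) ^ k < a + b then (2 : ℝ) ^ k else 0) * (d ^ 2 / (4 * l)) := by
    intro k _
    have hk : (0 : ℝ) < 2 ^ k := by positivity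
    split_ifs with h
    · set X := TT (2 ^ k) a - TT (2 ^ k) b with hX
      have h2 : 0 ≤ (2 * l * X - 2 ^ k * d) ^ 2 / (4 * l * 2 ^ k) := by positivity
      have h3 : (2 * l * X - 2 ^ k * d) ^ 2 / (4 * l * 2 ^ k) =
          l * (X ^ 2 / 2 ^ k) - X * d + 2 ^ k * (d ^ 2 / (4 * l)) := by
        field_simp
        ring
      linarith
    · push Not at h
      rw [TT_eq_zero hk (by linarith), TT_eq_zero hk (by linarith)]
      simp
  rw [← Finset.sum_sub_distrib, Finset.sum_mul, Finset.mul_sum]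
  calc ∑ k ∈ range K, (TT (2 ^ k) a - TT (2 ^ k) b) * d
      ≤ ∑ k ∈ range K, (l * ((TT (2 ^ k) a - TT (2 ^ k) b) ^ 2 / 2 ^ k) +
      (if (2 : ℝ) ^ k < a + b then (2 : ℝ) ^ k else 0) * (d ^ 2 / (4 * l))) :=
        Finset.sum_le_sum h1
    _ = ∑ k ∈ range K, l * ((TT (2 ^ k) a - TT (2 ^ k) b) ^ 2 / 2 ^ k) +
      (∑ k ∈ range K, (if (2 : ℝ) ^ k < a + b then (2 : ℝ) ^ k else 0)) * (d ^ 2 / (4 * l)) := by
        rw [Finset.sum_add_distrib, Finset.sum_mul]
    _ ≤ ∑ k ∈ range K, l * ((TT (2 ^ k) a - TT (2 ^ k) b) ^ 2 / 2 ^ k) +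
      (2 * (a + b)) * (d ^ 2 / (4 * l)) := by
        have := mul_le_mul_of_nonneg_right (sum_pow_lt K (by linarith : 0 ≤ a + b))
          (by positivity : 0 ≤ d ^ 2 / (4 * l))
        linarith
    _ = _ := by
        have e : (2 * (a + b)) * (d ^ 2 / (4 * l)) = (a + b) * d ^ 2 / (2 * l) := by
          field_simp; ring
        rw [e]

variable {P : Matrix Ω Ω ℝ} {π : Ω → ℝ} (h : IsRevChain P π)

include h

theorem one_time {x y : Ω} (hxy : x ≠ y) {K : ℕ} (hK : 1 / π x ≤ 2 ^ K) {l : ℝ} (hl : 0 < l)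
    {t s : ℕ} (hs : s < t) :
    hit P y t x ≤ 1 / ((t : ℝ) - s) +
      (l * ∑ k ∈ range K, (∑ z, ∑ w, π z * P z w * (TT (2 ^ k) (tab P x y s z / π z) -
        TT (2 ^ k) (tab P x y s w / π w)) ^ 2) / 2 ^ k +
      (∑ z, tab P x y s z * ∑ w, P z w *
        (gg P y (t - 1 - s) w - gg P y (t - 1 - s) z) ^ 2) / l) / 2 := by
  obtain ⟨r, hr⟩ : ∃ r, t = s + (r + 1) := ⟨t - s - 1, by omega⟩
  have hr1 : t - 1 - s = r := by omega
  rw [hr1]
  set u : Ω → ℝ := fun z => tab P x y s z / π z with hu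
  set g : Ω → ℝ := gg P y r with hg
  have hu0 : ∀ z, 0 ≤ u z := fun z => div_nonneg (tab_nonneg h x y s z) (h.pi_pos z).le
  have huK : ∀ z, u z ≤ 2 ^ K := by
    intro z
    refine le_trans ?_ hK
    have := tab_le h x y s z
    simp only [hu]
    rw [div_le_iff₀ (h.pi_pos z)]
    calc tab P x y s z ≤ π z / π x := this
      _ = _ := by ring
  have huy : u y = 0 := by simp only [hu, tab_y P hxy, zero_div]
  have htab : ∀ z, tab P x y s z = π z * u z := by
    intro z
    have := (h.pi_pos z).ne'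
    simp only [hu]
    field_simp
  have hB : ∀ z, z ≠ y → hit P y (r + 1) z = ∑ w, P z w * (g w - g z) := by
    intro z hz
    rw [hit_eq_sub, gg_succ_ne P hz]
    simp only [mul_sub, Finset.sum_sub_distrib, hg]
    rw [← Finset.sum_mul, h.row_sum, one_mul]
  set v : Ω → ℝ := fun z => ∑ k ∈ range K, TT (2 ^ k) (u z) with hv
  have hv_y : v y = 0 := by
    simp only [hv, huy]
    exact Finset.sum_eq_zero fun k _ => TT_zero (by positivity)
  have hf : hit P y t x = ∑ z, π z * min (u z) 1 * hit P y (r + 1) z +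
      ∑ z, ∑ w, π z * P z w * (v z * (g w - g z)) := by
    rw [hr, ← tab_hit h hxy s r, ← Finset.sum_add_distrib]
    refine Finset.sum_congr rfl fun z _ => ?_
    by_cases hz : z = y
    · subst hz
      rw [tab_y P hxy, huy, hv_y]
      simp
    · have h1 : ∑ w, π z * P z w * (v z * (g w - g z)) = π z * v z * hit P y (r + 1) z := by
        rw [hB z hz, Finset.mul_sum]
        exact Finset.sum_congr rfl fun w _ => by ring
      rw [h1, htab, ← add_mul, ← mul_add]
      congr 2
      exact split_one (huK z)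
  have hlow : ∑ z, π z * min (u z) 1 * hit P y (r + 1) z ≤ 1 / ((t : ℝ) - s) := by
    have h1 : ∑ z, π z * min (u z) 1 * hit P y (r + 1) z ≤ ∑ z, π z * hit P y (r + 1) z := by
      refine Finset.sum_le_sum fun z _ => ?_
      refine mul_le_mul_of_nonneg_right ?_ (hit_nonneg' h _ _ _)
      have := mul_le_mul_of_nonneg_left (min_le_right (u z) 1) (h.pi_pos z).le
      linarith
    have h2 := stat_hit_le h y r
    have h3 : (t : ℝ) - s = r + 1 := by rw [hr]; push_cast; ring
    rw [h3, le_div_iff₀ (by positivity)]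
    have h4 : (0 : ℝ) < (r : ℝ) + 1 := by positivity
    nlinarith
  have hsym : ∑ z, ∑ w, π z * P z w * (v z * (g w - g z)) =
      (∑ z, ∑ w, π z * P z w * ((v z - v w) * (g w - g z))) / 2 := by
    have h1 : ∑ z, ∑ w, π z * P z w * (v w * (g w - g z)) =
        - ∑ z, ∑ w, π z * P z w * (v z * (g w - g z)) := by
      rw [Finset.sum_comm, ← Finset.sum_neg_distrib]
      refine Finset.sum_congr rfl fun z _ => ?_
      rw [← Finset.sum_neg_distrib]
      refine Finset.sum_congr rfl fun w _ => ?_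
      rw [h.rev w z]
      ring
    have h2 : ∑ z, ∑ w, π z * P z w * ((v z - v w) * (g w - g z)) =
        ∑ z, ∑ w, π z * P z w * (v z * (g w - g z)) -
        ∑ z, ∑ w, π z * P z w * (v w * (g w - g z)) := by
      rw [← Finset.sum_sub_distrib]
      refine Finset.sum_congr rfl fun z _ => ?_
      rw [← Finset.sum_sub_distrib]
      exact Finset.sum_congr rfl fun w _ => by ring
    rw [h2, h1]
    ring
  have hhigh : ∑ z, ∑ w, π z * P z w * ((v z - v w) * (g w - g z)) ≤
      l * ∑ k ∈ range K, (∑ z, ∑ w, π z * P z w * (TT (2 ^ k) (u z) -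
        TT (2 ^ k) (u w)) ^ 2) / 2 ^ k +
      (∑ z, tab P x y s z * ∑ w, P z w * (g w - g z) ^ 2) / l := by
    have h1 : ∀ z w, π z * P z w * ((v z - v w) * (g w - g z)) ≤
        l * ∑ k ∈ range K, (π z * P z w * (TT (2 ^ k) (u z) - TT (2 ^ k) (u w)) ^ 2) / 2 ^ k +
        π z * P z w * ((u z + u w) * (g w - g z) ^ 2) / (2 * l) := by
      intro z w
      have h2 := edge_bound K (d := g w - g z) (hu0 z) (hu0 w) hl
      have h3 := mul_le_mul_of_nonneg_left h2 (mul_nonneg (h.pi_pos z).le (h.nonneg z w))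
      refine h3.trans (le_of_eq ?_)
      rw [mul_add]
      congr 1
      · rw [mul_left_comm, Finset.mul_sum]
        congr 1
        exact Finset.sum_congr rfl fun k _ => by ring
      · ring
    have h4 : ∑ z, ∑ w, π z * P z w * ((u z + u w) * (g w - g z) ^ 2) =
        2 * ∑ z, tab P x y s z * ∑ w, P z w * (g w - g z) ^ 2 := by
      have h5 : ∑ z, ∑ w, π z * P z w * (u w * (g w - g z) ^ 2) =
          ∑ z, ∑ w, π z * P z w * (u z * (g w - g z) ^ 2) := by
        rw [Finset.sum_comm]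
        refine Finset.sum_congr rfl fun z _ => Finset.sum_congr rfl fun w _ => ?_
        rw [h.rev w z]
        ring
      have h6 : ∑ z, ∑ w, π z * P z w * (u z * (g w - g z) ^ 2) =
          ∑ z, tab P x y s z * ∑ w, P z w * (g w - g z) ^ 2 := by
        refine Finset.sum_congr rfl fun z _ => ?_
        rw [htab, Finset.mul_sum]
        exact Finset.sum_congr rfl fun w _ => by ring
      have h7 : ∑ z, ∑ w, π z * P z w * ((u z + u w) * (g w - g z) ^ 2) =
          ∑ z, ∑ w, π z * P z w * (u z * (g w - g z) ^ 2) +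
          ∑ z, ∑ w, π z * P z w * (u w * (g w - g z) ^ 2) := by
        rw [← Finset.sum_add_distrib]
        refine Finset.sum_congr rfl fun z _ => ?_
        rw [← Finset.sum_add_distrib]
        exact Finset.sum_congr rfl fun w _ => by ring
      rw [h7, h5, h6]
      ring
    calc ∑ z, ∑ w, π z * P z w * ((v z - v w) * (g w - g z))
        ≤ ∑ z, ∑ w, (l * ∑ k ∈ range K, (π z * P z w * (TT (2 ^ k) (u z) -
          TT (2 ^ k) (u w)) ^ 2) / 2 ^ k +
          π z * P z w * ((u z + u w) * (g w - g z) ^ 2) / (2 * l)) :=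
          Finset.sum_le_sum fun z _ => Finset.sum_le_sum fun w _ => h1 z w
      _ = ∑ z, ∑ w, l * ∑ k ∈ range K, (π z * P z w * (TT (2 ^ k) (u z) -
          TT (2 ^ k) (u w)) ^ 2) / 2 ^ k +
          (∑ z, ∑ w, π z * P z w * ((u z + u w) * (g w - g z) ^ 2)) / (2 * l) := by
          rw [Finset.sum_div, ← Finset.sum_add_distrib]
          refine Finset.sum_congr rfl fun z _ => ?_
          rw [Finset.sum_div, ← Finset.sum_add_distrib]
      _ = _ := by
          congr 1
          · rw [Finset.mul_sum]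
            have e : ∀ z, ∑ w, l * ∑ k ∈ range K, (π z * P z w * (TT (2 ^ k) (u z) -
                TT (2 ^ k) (u w)) ^ 2) / 2 ^ k = ∑ k ∈ range K, ∑ w,
                l * ((π z * P z w * (TT (2 ^ k) (u z) - TT (2 ^ k) (u w)) ^ 2) / 2 ^ k) := by
              intro z
              rw [Finset.sum_comm]
              exact Finset.sum_congr rfl fun w _ => by rw [Finset.mul_sum]
            simp only [e]
            rw [Finset.sum_comm]
            refine Finset.sum_congr rfl fun k _ => ?_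
            rw [Finset.sum_div, Finset.mul_sum]
            refine Finset.sum_congr rfl fun z _ => ?_
            rw [Finset.sum_div, Finset.mul_sum]
          · rw [h4]
            field_simp
  rw [hf, hsym]
  have := div_le_div_of_nonneg_right hhigh (by norm_num : (0 : ℝ) ≤ 2)
  linarith

/-- For a chain whose holding probabilities are at least `δ`, the hitting probabilities satisfy the
bound with a square root of a logarithm. -/
theorem lazy_bound {δ : ℝ} (hδ : 0 < δ) (hlazy : ∀ z, δ ≤ P z z) (x y : Ω) {t : ℕ} (ht : 1 ≤ t) :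
    hit P y t x ≤ 16 / (δ * t) * Real.sqrt (max 1 (Real.log (1 / π x))) := by
  have htr : (0 : ℝ) < t := by exact_mod_cast ht
  by_cases hxy : x = y
  · subst hxy
    obtain ⟨r, rfl⟩ : ∃ r, t = r + 1 := ⟨t - 1, by omega⟩
    rw [hit_succ_self]
    positivity
  have hx := h.pi_pos x
  have hδ1 : δ ≤ 1 := by
    refine (hlazy x).trans ?_
    rw [← h.row_sum x]
    exact Finset.single_le_sum (fun z _ => h.nonneg x z) (Finset.mem_univ x)
  set W : ℝ := Real.log (1 / π x) with hW
  have hl2 : 0 < Real.log 2 := Real.log_pos (by norm_num)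
  set K : ℕ := ⌈W / Real.log 2⌉₊ with hKdef
  have hK : 1 / π x ≤ 2 ^ K := by
    have h1 : W / Real.log 2 ≤ K := Nat.le_ceil _
    rw [div_le_iff₀ hl2] at h1
    have h2 : Real.exp W ≤ Real.exp (K * Real.log 2) := Real.exp_le_exp.2 h1
    rw [hW, Real.exp_log (by positivity), Real.exp_nat_mul, Real.exp_log (by norm_num)] at h2
    exact h2
  set L : ℝ := max 1 (K : ℝ) with hL
  have hL1 : 1 ≤ L := le_max_left _ _
  have hL0 : 0 < L := by linarith
  have hsL : 0 < Real.sqrt L := Real.sqrt_pos.2 hL0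
  set l : ℝ := 1 / (2 * Real.sqrt L) with hl
  have hl0 : 0 < l := by positivity
  set N : ℕ := t / 2 + 1 with hN
  have hNt : N ≤ t := by omega
  have hNr : (t : ℝ) / 2 ≤ N := by
    have : t ≤ 2 * N := by omega
    have : (t : ℝ) ≤ 2 * N := by exact_mod_cast this
    linarith
  have hN0 : (0 : ℝ) < N := by linarith
  have hsum : ∑ s ∈ range N, hit P y t x ≤ ∑ s ∈ range N, (1 / ((t : ℝ) - s) +
      (l * ∑ k ∈ range K, (∑ z, ∑ w, π z * P z w * (TT (2 ^ k) (tab P x y s z / π z) -
        TT (2 ^ k) (tab P x y s w / π w)) ^ 2) / 2 ^ k +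
      (∑ z, tab P x y s z * ∑ w, P z w *
        (gg P y (t - 1 - s) w - gg P y (t - 1 - s) z) ^ 2) / l) / 2) :=
    Finset.sum_le_sum fun s hs => one_time h hxy hK hl0 (by have := Finset.mem_range.1 hs; omega)
  rw [Finset.sum_const, Finset.card_range, nsmul_eq_mul, Finset.sum_add_distrib,
    ← Finset.sum_div, Finset.sum_add_distrib, ← Finset.mul_sum, ← Finset.sum_div] at hsum
  have hA : ∑ s ∈ range N, ∑ k ∈ range K, (∑ z, ∑ w, π z * P z w *
      (TT (2 ^ k) (tab P x y s z / π z) - TT (2 ^ k) (tab P x y s w / π w)) ^ 2) / 2 ^ k ≤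
      4 * (1 + 1 / δ) * L := by
    rw [Finset.sum_comm]
    calc _ ≤ ∑ k ∈ range K, 4 * (1 + 1 / δ) := by
          refine Finset.sum_le_sum fun k _ => ?_
          rw [← Finset.sum_div, div_le_iff₀ (by positivity)]
          exact sum_E h hδ hlazy x y (by positivity) N
      _ = 4 * (1 + 1 / δ) * K := by simp; ring
      _ ≤ 4 * (1 + 1 / δ) * L := mul_le_mul_of_nonneg_left (le_max_right _ _) (by positivity)
  have hV := sum_V h hδ hlazy hxy t N hNt
  have hLow : ∑ s ∈ range N, 1 / ((t : ℝ) - s) ≤ N * (2 / t) := by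
    calc _ ≤ ∑ s ∈ range N, (2 / (t : ℝ)) := by
          refine Finset.sum_le_sum fun s hs => ?_
          have hs' : s ≤ t / 2 := by have := Finset.mem_range.1 hs; omega
          have h2 : (s : ℝ) ≤ t / 2 := by
            have : 2 * s ≤ t := by omega
            have : (2 : ℝ) * s ≤ t := by exact_mod_cast this
            linarith
          rw [div_le_div_iff₀ (by linarith) htr]
          linarith
      _ = _ := by simp
  have hδ2 : 1 + 1 / δ ≤ 2 / δ := by
    rw [le_div_iff₀ hδ, add_mul, one_div, inv_mul_cancel₀ hδ.ne']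
    linarith
  have hmain : (N : ℝ) * hit P y t x ≤ N * (2 / t) + 4 * Real.sqrt L / δ := by
    have h1 : l * (4 * (1 + 1 / δ) * L) = 2 * (1 + 1 / δ) * Real.sqrt L := by
      rw [hl]
      have : L = Real.sqrt L * Real.sqrt L := (Real.mul_self_sqrt hL0.le).symm
      rw [one_div, inv_mul_eq_div, div_eq_iff (by positivity)]
      nth_rewrite 1 [this]
      ring
    have h2 : (1 + 1 / δ) / l = 2 * (1 + 1 / δ) * Real.sqrt L := by
      rw [hl]
      field_simp
    have h3 := mul_le_mul_of_nonneg_left hA hl0.le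
    have h4 := div_le_div_of_nonneg_right hV hl0.le
    rw [h1] at h3
    rw [h2] at h4
    have h5 : 2 * (1 + 1 / δ) * Real.sqrt L ≤ 2 * (2 / δ) * Real.sqrt L := by gcongr
    have h6 : 2 * (2 / δ) * Real.sqrt L = 4 * Real.sqrt L / δ := by ring
    linarith
  have h7 : hit P y t x ≤ 2 / t + 8 * Real.sqrt L / (δ * t) := by
    have h8 : hit P y t x ≤ 2 / t + 4 * Real.sqrt L / δ / N := by
      rw [← sub_le_iff_le_add', le_div_iff₀ hN0]
      linarith
    refine h8.trans ?_
    have h9 : 4 * Real.sqrt L / δ / N ≤ 4 * Real.sqrt L / δ / (t / 2) :=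
      div_le_div_of_nonneg_left (by positivity) (by positivity) hNr
    have h10 : 4 * Real.sqrt L / δ / ((t : ℝ) / 2) = 8 * Real.sqrt L / (δ * t) := by
      field_simp; ring
    linarith
  set M : ℝ := max 1 W with hM
  have hM1 : 1 ≤ M := le_max_left _ _
  have hLM : L ≤ 2.56 * M := by
    refine max_le (by linarith) ?_
    have h11 : (K : ℝ) < W / Real.log 2 + 1 := by
      refine Nat.ceil_lt_add_one ?_
      have : 0 ≤ W := by
        refine Real.log_nonneg ?_
        rw [le_div_iff₀ hx, one_mul, ← h.pi_sum]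
        exact Finset.single_le_sum (fun z _ => (h.pi_pos z).le) (Finset.mem_univ x)
      positivity
    have h12 : W / Real.log 2 ≤ 1.5 * M := by
      rw [div_le_iff₀ hl2]
      have h13 := Real.log_two_gt_d9
      have h14 : W ≤ M := le_max_right _ _
      nlinarith
    linarith
  have hsq : Real.sqrt L ≤ 1.6 * Real.sqrt M := by
    rw [Real.sqrt_le_left (by positivity), mul_pow, Real.sq_sqrt (by linarith)]
    linarith
  have hs1 : 1 ≤ Real.sqrt M := by
    rw [Real.one_le_sqrt]; exact hM1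
  calc hit P y t x ≤ 2 / t + 8 * Real.sqrt L / (δ * t) := h7
    _ ≤ 2 * Real.sqrt M / (δ * t) + 8 * (1.6 * Real.sqrt M) / (δ * t) := by
        have e1 : (2 : ℝ) / t ≤ 2 * Real.sqrt M / (δ * t) := by
          rw [div_le_div_iff₀ htr (by positivity)]
          nlinarith
        have e2 : 8 * Real.sqrt L / (δ * t) ≤ 8 * (1.6 * Real.sqrt M) / (δ * t) := by gcongr
        linarith
    _ = 14.8 / (δ * t) * Real.sqrt M := by ring
    _ ≤ 16 / (δ * t) * Real.sqrt M := by gcongr; norm_num

end Q296.Surprise
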