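import Pool.Agent.Q296.Surprise.Defs

/-!
# A nearly deterministic path
-/

namespace Q296.Surprise

open Finset Matrix

/-- Transition matrix of the path `0, …, n`: one step up with probability `n/(n+1)`, one step down
with probability `1/(n+1)`, holding instead of leaving the path. -/
noncomputable def PP (n : ℕ) : Matrix (Fin (n + 1)) (Fin (n + 1)) ℝ := fun i j =>
  (if (j : ℕ) = (i : ℕ) + 1 ∨ ((i : ℕ) = n ∧ (j : ℕ) = n) then (n : ℝ) / (n + 1) else 0) +
  (if (i : ℕ) = (j : ℕ) + 1 ∨ ((i : ℕ) = 0 ∧ (j : ℕ) = 0) then 1 / ((n : ℝ) + 1) else 0)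

/-- Normalising constant. -/
noncomputable def ZZ (n : ℕ) : ℝ := ∑ i : Fin (n + 1), (n : ℝ) ^ (i : ℕ)

/-- Stationary distribution. -/
noncomputable def pp (n : ℕ) (i : Fin (n + 1)) : ℝ := (n : ℝ) ^ (i : ℕ) / ZZ n

theorem ZZ_pos {n : ℕ} (hn : 1 ≤ n) : 0 < ZZ n := by
  have : (0 : ℝ) < n := by exact_mod_cast hn
  exact Finset.sum_pos (fun _ _ => by positivity) ⟨0, by simp⟩

theorem PP_nonneg (n : ℕ) (i j : Fin (n + 1)) : 0 ≤ PP n i j := by
  unfold PP
  refine add_nonneg ?_ ?_ <;> split_ifs <;> positivity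

theorem PP_row (n : ℕ) (i : Fin (n + 1)) : ∑ j, PP n i j = 1 := by
  unfold PP
  rw [Finset.sum_add_distrib]
  have hn0 : (n : ℝ) + 1 ≠ 0 := by positivity
  have h1 : ∑ j : Fin (n + 1), (if (j : ℕ) = (i : ℕ) + 1 ∨ ((i : ℕ) = n ∧ (j : ℕ) = n)
      then (n : ℝ) / (n + 1) else 0) = (n : ℝ) / (n + 1) := by
    by_cases hi : (i : ℕ) = n
    · rw [Finset.sum_eq_single (Fin.last n)]
      · simp [hi]
      · intro j _ hj
        rw [if_neg]
        rintro (h | ⟨_, h⟩)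
        · have := j.2; omega
        · exact hj (Fin.ext (by simpa using h))
      · simp
    · have hlt : (i : ℕ) + 1 < n + 1 := by have := i.2; omega
      rw [Finset.sum_eq_single ⟨(i : ℕ) + 1, hlt⟩]
      · simp
      · intro j _ hj
        rw [if_neg]
        rintro (h | ⟨h, _⟩)
        · exact hj (Fin.ext h)
        · exact hi h
      · simp
  have h2 : ∑ j : Fin (n + 1), (if (i : ℕ) = (j : ℕ) + 1 ∨ ((i : ℕ) = 0 ∧ (j : ℕ) = 0)
      then 1 / ((n : ℝ) + 1) else 0) = 1 / ((n : ℝ) + 1) := by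
    by_cases hi : (i : ℕ) = 0
    · rw [Finset.sum_eq_single 0]
      · simp [hi]
      · intro j _ hj
        rw [if_neg]
        rintro (h | ⟨_, h⟩)
        · omega
        · exact hj (Fin.ext (by simpa using h))
      · simp
    · have hlt : (i : ℕ) - 1 < n + 1 := by have := i.2; omega
      rw [Finset.sum_eq_single ⟨(i : ℕ) - 1, hlt⟩]
      · rw [if_pos]; left; simp; omega
      · intro j _ hj
        rw [if_neg]
        rintro (h | ⟨h, _⟩)
        · exact hj (Fin.ext (by simp; omega))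
        · exact hi h
      · simp
  rw [h1, h2]
  field_simp

theorem PP_rev (n : ℕ) (i j : Fin (n + 1)) : pp n i * PP n i j = pp n j * PP n j i := by
  have hn0 : (n : ℝ) + 1 ≠ 0 := by positivity
  have key : (n : ℝ) ^ (i : ℕ) * PP n i j = (n : ℝ) ^ (j : ℕ) * PP n j i := by
    unfold PP
    by_cases h1 : (j : ℕ) = (i : ℕ) + 1
    · have h2 : ¬ ((i : ℕ) = (j : ℕ) + 1 ∨ ((i : ℕ) = 0 ∧ (j : ℕ) = 0)) := by omega
      have h3 : ¬ ((i : ℕ) = (j : ℕ) + 1 ∨ ((j : ℕ) = n ∧ (i : ℕ) = n)) := by omega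
      rw [if_pos (Or.inl h1), if_neg h2, if_neg h3, if_pos (Or.inl h1), h1, pow_succ]
      field_simp
      ring
    · by_cases h2 : (i : ℕ) = (j : ℕ) + 1
      · have h3 : ¬ ((j : ℕ) = (i : ℕ) + 1 ∨ ((i : ℕ) = n ∧ (j : ℕ) = n)) := by omega
        have h4 : ¬ ((j : ℕ) = (i : ℕ) + 1 ∨ ((j : ℕ) = 0 ∧ (i : ℕ) = 0)) := by omega
        rw [if_neg h3, if_pos (Or.inl h2), if_pos (Or.inl h2), if_neg h4, h2, pow_succ]
        field_simp
        ring
      · by_cases h3 : i = j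
        · subst h3; rfl
        · have h3' : (i : ℕ) ≠ (j : ℕ) := fun h => h3 (Fin.ext h)
          have e1 : ¬ ((j : ℕ) = (i : ℕ) + 1 ∨ ((i : ℕ) = n ∧ (j : ℕ) = n)) := by omega
          have e2 : ¬ ((i : ℕ) = (j : ℕ) + 1 ∨ ((i : ℕ) = 0 ∧ (j : ℕ) = 0)) := by omega
          have e3 : ¬ ((i : ℕ) = (j : ℕ) + 1 ∨ ((j : ℕ) = n ∧ (i : ℕ) = n)) := by omega
          have e4 : ¬ ((j : ℕ) = (i : ℕ) + 1 ∨ ((j : ℕ) = 0 ∧ (i : ℕ) = 0)) := by omega
          rw [if_neg e1, if_neg e2, if_neg e3, if_neg e4]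
          simp
  unfold pp
  rw [div_mul_eq_mul_div, div_mul_eq_mul_div, key]

theorem isRevChain {n : ℕ} (hn : 1 ≤ n) : IsRevChain (PP n) (pp n) where
  nonneg := PP_nonneg n
  row_sum := PP_row n
  pi_pos := fun i => by
    have := ZZ_pos hn
    have h : (0 : ℝ) < n := by exact_mod_cast hn
    unfold pp; positivity
  pi_sum := by
    unfold pp
    rw [← Finset.sum_div]
    exact div_self (ZZ_pos hn).ne'
  rev := PP_rev n

theorem hit_nonneg {Ω : Type*} [Fintype Ω] [DecidableEq Ω] {P : Matrix Ω Ω ℝ}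
    (hP : ∀ x y, 0 ≤ P x y) (y : Ω) (t : ℕ) (x : Ω) : 0 ≤ hit P y t x := by
  induction t generalizing x with
  | zero => unfold hit; split_ifs <;> norm_num
  | succ t ih =>
    unfold hit
    split_ifs
    · exact le_rfl
    · exact Finset.sum_nonneg fun z _ => mul_nonneg (hP x z) (ih z)

theorem hit_ge (n : ℕ) (t : ℕ) (ht : t ≤ n) :
    ((n : ℝ) / (n + 1)) ^ t ≤ hit (PP n) (Fin.last n) t ⟨n - t, by omega⟩ := by
  induction t with
  | zero =>
    unfold hit
    rw [if_pos (Fin.ext (by simp))]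
    simp
  | succ t ih =>
    have h1 := ih (by omega)
    unfold hit
    rw [if_neg (fun h => by have := congrArg Fin.val h; simp at this; omega)]
    have h2 : PP n ⟨n - (t + 1), by omega⟩ ⟨n - t, by omega⟩ *
        hit (PP n) (Fin.last n) t ⟨n - t, by omega⟩ ≤
        ∑ z, PP n ⟨n - (t + 1), by omega⟩ z * hit (PP n) (Fin.last n) t z :=
      Finset.single_le_sum (f := fun z => PP n ⟨n - (t + 1), by omega⟩ z *
        hit (PP n) (Fin.last n) t z)
        (fun z _ => mul_nonneg (PP_nonneg n _ z) (hit_nonneg (PP_nonneg n) _ t z))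
        (Finset.mem_univ _)
    refine le_trans ?_ h2
    have h3 : (n : ℝ) / (n + 1) ≤ PP n ⟨n - (t + 1), by omega⟩ ⟨n - t, by omega⟩ := by
      unfold PP
      rw [if_pos (Or.inl (by simp; omega))]
      have : (0 : ℝ) ≤ (if (⟨n - (t + 1), by omega⟩ : Fin (n + 1)).val =
          (⟨n - t, by omega⟩ : Fin (n + 1)).val + 1 ∨
          ((⟨n - (t + 1), by omega⟩ : Fin (n + 1)).val = 0 ∧
          (⟨n - t, by omega⟩ : Fin (n + 1)).val = 0) then 1 / ((n : ℝ) + 1) else 0) := by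
        split_ifs <;> positivity
      linarith
    rw [pow_succ, mul_comm]
    exact mul_le_mul h3 h1 (by positivity) (PP_nonneg n _ _)

theorem PP_diag_zero (n : ℕ) : 0 < PP n 0 0 := by
  unfold PP
  have : (0 : ℝ) < 1 / ((n : ℝ) + 1) := by positivity
  have h2 : (0 : ℝ) ≤ (if ((0 : Fin (n + 1)) : ℕ) = ((0 : Fin (n + 1)) : ℕ) + 1 ∨
      (((0 : Fin (n + 1)) : ℕ) = n ∧ ((0 : Fin (n + 1)) : ℕ) = n)
      then (n : ℝ) / (n + 1) else 0) := by
    split_ifs <;> positivity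
  rw [if_pos (Or.inr ⟨rfl, rfl⟩ : ((0 : Fin (n + 1)) : ℕ) = ((0 : Fin (n + 1)) : ℕ) + 1 ∨
      (((0 : Fin (n + 1)) : ℕ) = 0 ∧ ((0 : Fin (n + 1)) : ℕ) = 0))]
  linarith

end Q296.Surprise
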