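import Pool.Agent.Q296.Surprise.Path
import Pool.Agent.Q296.MLS.Chain

/-!
# The nearly deterministic path violates the bound
-/

namespace Q296.Surprise

open Finset Matrix

theorem PP_step_up (n : ℕ) (hn : 1 ≤ n) (i : Fin n) : 0 < PP n i.castSucc i.succ := by
  have h : (0 : ℝ) < n := by exact_mod_cast hn
  unfold PP
  rw [if_pos (Or.inl (by simp))]
  have h1 : (0 : ℝ) < (n : ℝ) / (n + 1) := by positivity
  have h2 : (0 : ℝ) ≤ (if (i.castSucc : ℕ) = (i.succ : ℕ) + 1 ∨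
      ((i.castSucc : ℕ) = 0 ∧ (i.succ : ℕ) = 0) then 1 / ((n : ℝ) + 1) else 0) := by
    split_ifs <;> positivity
  linarith

theorem PP_step_down (n : ℕ) (i : Fin n) : 0 < PP n i.succ i.castSucc := by
  unfold PP
  have h0 : (i.succ : ℕ) = (i.castSucc : ℕ) + 1 ∨
      ((i.succ : ℕ) = 0 ∧ (i.castSucc : ℕ) = 0) := Or.inl (by simp)
  rw [if_pos h0]
  have h1 : (0 : ℝ) < 1 / ((n : ℝ) + 1) := by positivity
  have h2 : (0 : ℝ) ≤ (if (i.castSucc : ℕ) = (i.succ : ℕ) + 1 ∨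
      ((i.succ : ℕ) = n ∧ (i.castSucc : ℕ) = n) then (n : ℝ) / (n + 1) else 0) := by
    split_ifs <;> positivity
  linarith

theorem PP_irred (n : ℕ) (hn : 1 ≤ n) (x y : Fin (n + 1)) : ∃ k : ℕ, 0 < (PP n ^ k) x y := by
  have h0 : ∀ x : Fin (n + 1), (∃ k : ℕ, 0 < (PP n ^ k) 0 x) ∧ (∃ k : ℕ, 0 < (PP n ^ k) x 0) := by
    intro x
    induction x using Fin.induction with
    | zero => exact ⟨⟨0, by simp⟩, ⟨0, by simp⟩⟩
    | succ i ih =>
      exact ⟨Q296.MLS.reach_trans (PP_nonneg n) ih.1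
        ⟨1, by rw [pow_one]; exact PP_step_up n hn i⟩,
        Q296.MLS.reach_trans (PP_nonneg n) ⟨1, by rw [pow_one]; exact PP_step_down n i⟩ ih.2⟩
  exact Q296.MLS.reach_trans (PP_nonneg n) (h0 x).2 (h0 y).1

theorem pow_ge_third (n : ℕ) (hn : 1 ≤ n) : 1 / 3 ≤ ((n : ℝ) / (n + 1)) ^ n := by
  have h : (0 : ℝ) < n := by exact_mod_cast hn
  have h1 : (1 + 1 / (n : ℝ)) ^ n ≤ 3 := by
    have h2 : 1 + 1 / (n : ℝ) ≤ Real.exp (1 / n) := by
      have := Real.add_one_le_exp (1 / (n : ℝ)); linarith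
    calc (1 + 1 / (n : ℝ)) ^ n ≤ (Real.exp (1 / n)) ^ n :=
          pow_le_pow_left₀ (by positivity) h2 n
      _ = Real.exp 1 := by
          rw [← Real.exp_nat_mul]
          congr 1
          field_simp
      _ ≤ 3 := by have := Real.exp_one_lt_d9; linarith
  have h3 : (n : ℝ) / (n + 1) = (1 + 1 / (n : ℝ))⁻¹ := by field_simp
  rw [h3, inv_pow, one_div]
  exact inv_anti₀ (by positivity) h1

theorem log_le (m : ℕ) (hm : 2 ≤ m) :
    Real.log (1 / pp (m ^ 4 - 1) 0) ≤ 4 * (m : ℝ) ^ 6 := by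
  have hm4 : 2 ^ 4 ≤ m ^ 4 := Nat.pow_le_pow_left hm 4
  set n : ℕ := m ^ 4 - 1 with hn
  have hn1 : 1 ≤ n := by omega
  have hnm : n + 1 = m ^ 4 := by omega
  have hZ := ZZ_pos hn1
  have h1 : 1 / pp n 0 = ZZ n := by
    unfold pp
    simp
  rw [h1]
  have hnr : (0 : ℝ) < n := by exact_mod_cast hn1
  have hmr : (2 : ℝ) ≤ m := by exact_mod_cast hm
  have h2 : ZZ n ≤ ((m : ℝ) ^ 4) ^ (m ^ 4) := by
    have h3 : ∀ i : Fin (n + 1), (n : ℝ) ^ (i : ℕ) ≤ (n : ℝ) ^ n := fun i =>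
      pow_le_pow_right₀ (by exact_mod_cast hn1) (by have := i.2; omega)
    calc ZZ n ≤ ∑ _i : Fin (n + 1), (n : ℝ) ^ n := Finset.sum_le_sum fun i _ => h3 i
      _ = ((n : ℝ) + 1) * (n : ℝ) ^ n := by simp
      _ ≤ ((n : ℝ) + 1) * ((n : ℝ) + 1) ^ n := by
          refine mul_le_mul_of_nonneg_left (pow_le_pow_left₀ hnr.le (by linarith) n) (by positivity)
      _ = ((n : ℝ) + 1) ^ (n + 1) := by ring
      _ = ((m : ℝ) ^ 4) ^ (m ^ 4) := by
          have : (n : ℝ) + 1 = (m : ℝ) ^ 4 := by exact_mod_cast hnm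
          rw [this, hnm]
  have h4 : Real.log (ZZ n) ≤ Real.log (((m : ℝ) ^ 4) ^ (m ^ 4)) := Real.log_le_log hZ h2
  rw [Real.log_pow, Real.log_pow] at h4
  have h5 : Real.log m ≤ m := by
    have := Real.log_le_sub_one_of_pos (by linarith : (0 : ℝ) < m)
    linarith
  push_cast at h4
  calc Real.log (ZZ n) ≤ (m : ℝ) ^ 4 * (4 * Real.log m) := h4
    _ ≤ (m : ℝ) ^ 4 * (4 * m) := by
        refine mul_le_mul_of_nonneg_left ?_ (by positivity)
        linarith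
    _ = 4 * (m : ℝ) ^ 5 := by ring
    _ ≤ 4 * (m : ℝ) ^ 6 := by
        refine mul_le_mul_of_nonneg_left ?_ (by norm_num)
        exact pow_le_pow_right₀ (by linarith) (by norm_num)

theorem path_main (C : ℝ) : ∃ (n : ℕ), 1 ≤ n ∧
    C / n * Real.sqrt (max 1 (Real.log (1 / pp n 0))) < hit (PP n) (Fin.last n) n 0 := by
  obtain ⟨m0, hm0⟩ := exists_nat_gt (12 * |C|)
  set m : ℕ := m0 + 2 with hm
  have hm2 : 2 ≤ m := by omega
  have hm4 : 2 ^ 4 ≤ m ^ 4 := Nat.pow_le_pow_left hm2 4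
  have hmC : 12 * |C| < m := by
    have : (m : ℝ) = m0 + 2 := by rw [hm]; push_cast; ring
    linarith
  refine ⟨m ^ 4 - 1, by omega, ?_⟩
  set n : ℕ := m ^ 4 - 1 with hn
  have hn1 : 1 ≤ n := by omega
  have hnr : (0 : ℝ) < n := by exact_mod_cast hn1
  have hnm : (n : ℝ) + 1 = (m : ℝ) ^ 4 := by
    have : n + 1 = m ^ 4 := by omega
    exact_mod_cast this
  have hmr : (2 : ℝ) ≤ m := by exact_mod_cast hm2
  have h1 := hit_ge n n le_rfl
  have e0 : (⟨n - n, by omega⟩ : Fin (n + 1)) = 0 := Fin.ext (by simp)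
  rw [e0] at h1
  have h2 := pow_ge_third n hn1
  refine lt_of_lt_of_le ?_ (h2.trans h1)
  have h3 : Real.sqrt (max 1 (Real.log (1 / pp n 0))) ≤ 2 * (m : ℝ) ^ 3 := by
    rw [Real.sqrt_le_left (by positivity)]
    refine max_le ?_ ?_
    · have : (1 : ℝ) ≤ (m : ℝ) ^ 3 := one_le_pow₀ (by linarith)
      nlinarith
    · have := log_le m hm2
      calc _ ≤ 4 * (m : ℝ) ^ 6 := this
        _ = _ := by ring
  have h4 : (m : ℝ) ^ 4 / 2 ≤ n := by
    have : (16 : ℝ) ≤ (m : ℝ) ^ 4 := by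
      have : ((2 : ℝ)) ^ 4 ≤ (m : ℝ) ^ 4 := pow_le_pow_left₀ (by norm_num) hmr 4
      linarith
    linarith
  calc C / n * Real.sqrt (max 1 (Real.log (1 / pp n 0)))
      ≤ |C| / n * Real.sqrt (max 1 (Real.log (1 / pp n 0))) := by
        refine mul_le_mul_of_nonneg_right ?_ (Real.sqrt_nonneg _)
        exact div_le_div_of_nonneg_right (le_abs_self C) hnr.le
    _ ≤ |C| / n * (2 * (m : ℝ) ^ 3) := mul_le_mul_of_nonneg_left h3 (by positivity)
    _ = 2 * |C| * (m : ℝ) ^ 3 / n := by ring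
    _ ≤ 2 * |C| * (m : ℝ) ^ 3 / ((m : ℝ) ^ 4 / 2) := by
        refine div_le_div_of_nonneg_left (by positivity) (by positivity) h4
    _ = 4 * |C| / m := by
        field_simp
        ring
    _ < 1 / 3 := by
        rw [div_lt_div_iff₀ (by linarith) (by norm_num)]
        linarith

end Q296.Surprise
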