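import Pool.Agent.Q296.Surprise.Defs

/-!
# Truncations
-/

namespace Q296.Surprise

open Finset

/-- `min ((a - c)_+) c`. -/
noncomputable def TT (c a : ℝ) : ℝ := max (a - c) 0 - max (a - 2 * c) 0

/-- The primitive of `TT c`. -/
noncomputable def Th (c a : ℝ) : ℝ := (max (a - c) 0) ^ 2 / 2 - (max (a - 2 * c) 0) ^ 2 / 2

theorem TT_zero {c : ℝ} (hc : 0 < c) : TT c 0 = 0 := by
  unfold TT
  rw [max_eq_right (by linarith), max_eq_right (by linarith)]
  simp

theorem Th_zero {c : ℝ} (hc : 0 < c) : Th c 0 = 0 := by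
  unfold Th
  rw [max_eq_right (by linarith), max_eq_right (by linarith)]
  simp

theorem Th_nonneg {c : ℝ} (hc : 0 < c) (a : ℝ) : 0 ≤ Th c a := by
  unfold Th
  have h1 : max (a - 2 * c) 0 ≤ max (a - c) 0 := max_le_max (by linarith) le_rfl
  have h2 : (max (a - 2 * c) 0) ^ 2 ≤ (max (a - c) 0) ^ 2 :=
    pow_le_pow_left₀ (le_max_right _ _) h1 2
  linarith

theorem Th_le {c a : ℝ} (hc : 0 < c) (ha : 0 ≤ a) : Th c a ≤ c * a := by
  unfold Th
  rcases le_total a c with h1 | h1
  · rw [max_eq_right (by linarith), max_eq_right (by linarith)]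
    have : 0 ≤ c * a := by positivity
    simpa using this
  · rw [max_eq_left (by linarith)]
    rcases le_total a (2 * c) with h2 | h2
    · rw [max_eq_right (by linarith)]
      nlinarith
    · rw [max_eq_left (by linarith)]
      nlinarith

theorem bregman {c : ℝ} (hc : 0 < c) (a m : ℝ) :
    (TT c a - TT c m) ^ 2 / 2 ≤ Th c a - Th c m - TT c m * (a - m) := by
  unfold Th TT
  rcases le_total a c with h1 | h1 <;> rcases le_total m c with h2 | h2
  · rw [max_eq_right (by linarith : a - c ≤ 0), max_eq_right (by linarith : a - 2 * c ≤ 0),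
      max_eq_right (by linarith : m - c ≤ 0), max_eq_right (by linarith : m - 2 * c ≤ 0)]
    simp
  · rw [max_eq_right (by linarith : a - c ≤ 0), max_eq_right (by linarith : a - 2 * c ≤ 0),
      max_eq_left (by linarith : 0 ≤ m - c)]
    rcases le_total m (2 * c) with h3 | h3
    · rw [max_eq_right (by linarith : m - 2 * c ≤ 0)]
      nlinarith
    · rw [max_eq_left (by linarith : 0 ≤ m - 2 * c)]
      nlinarith
  · rw [max_eq_right (by linarith : m - c ≤ 0), max_eq_right (by linarith : m - 2 * c ≤ 0),
      max_eq_left (by linarith : 0 ≤ a - c)]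
    rcases le_total a (2 * c) with h3 | h3
    · rw [max_eq_right (by linarith : a - 2 * c ≤ 0)]
      nlinarith
    · rw [max_eq_left (by linarith : 0 ≤ a - 2 * c)]
      nlinarith
  · rw [max_eq_left (by linarith : 0 ≤ a - c), max_eq_left (by linarith : 0 ≤ m - c)]
    rcases le_total a (2 * c) with h3 | h3 <;> rcases le_total m (2 * c) with h4 | h4
    · rw [max_eq_right (by linarith : a - 2 * c ≤ 0), max_eq_right (by linarith : m - 2 * c ≤ 0)]
      nlinarith
    · rw [max_eq_right (by linarith : a - 2 * c ≤ 0), max_eq_left (by linarith : 0 ≤ m - 2 * c)]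
      nlinarith
    · rw [max_eq_left (by linarith : 0 ≤ a - 2 * c), max_eq_right (by linarith : m - 2 * c ≤ 0)]
      nlinarith
    · rw [max_eq_left (by linarith : 0 ≤ a - 2 * c), max_eq_left (by linarith : 0 ≤ m - 2 * c)]
      nlinarith

theorem TT_eq_zero {c a : ℝ} (hc : 0 < c) (h : a ≤ c) : TT c a = 0 := by
  unfold TT
  rw [max_eq_right (by linarith), max_eq_right (by linarith)]
  simp

/-- The part of `a` above `1` is the sum of its dyadic pieces. -/
theorem sum_TT (K : ℕ) (a : ℝ) :
    ∑ k ∈ range K, TT (2 ^ k) a = max (a - 1) 0 - max (a - 2 ^ K) 0 := by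
  induction K with
  | zero => simp
  | succ K ih =>
    rw [Finset.sum_range_succ, ih]
    unfold TT
    have : (2 : ℝ) ^ (K + 1) = 2 * 2 ^ K := by ring
    rw [this]
    ring

theorem sum_pow_lt (K : ℕ) {M : ℝ} (hM : 0 ≤ M) :
    ∑ k ∈ range K, (if (2 : ℝ) ^ k < M then (2 : ℝ) ^ k else 0) ≤ 2 * M := by
  have key : ∀ K : ℕ, ∑ k ∈ range K, (if (2 : ℝ) ^ k < M then (2 : ℝ) ^ k else 0) ≤
      min (2 * M) (2 ^ K) := by
    intro K
    induction K with
    | zero => simp; exact hM
    | succ K ih =>
      rw [Finset.sum_range_succ]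
      have h1 := ih.trans (min_le_left _ _)
      have h2 := ih.trans (min_le_right _ _)
      split_ifs with h
      · refine le_min ?_ ?_
        · linarith
        · rw [pow_succ]; linarith
      · refine le_min (by linarith) ?_
        rw [pow_succ]
        have : (0 : ℝ) < 2 ^ K := by positivity
        linarith
  exact (key K).trans (min_le_left _ _)

end Q296.Surprise
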